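import Pool.Agent.H63.SP.Levi

/-!
Order three: a group with a splitting endomorphism `φ` of order three (`g g^φ g^{φφ} = 1` for all
`g`) is nilpotent of class at most `3`.

Proof: applied to `g h` the identity gives `[h⁻¹, g] = [h^φ, (g^{φφ})⁻¹]`; three steps of
`[h, g] = [(h^φ)⁻¹, (g^{φφ})⁻¹]` give `[h, g] = [h⁻¹, g⁻¹]`, that is, `g h` commutes with `h g`.
So every element commutes with all its conjugates, and Levi's theorem applies (its proof is
in `Pool.Agent.H63.SP.Levi`).
-/

set_option autoImplicit false

namespace Pool.Agent.Results.MP_273d02_al.OrderThree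

/-- Every group with a splitting automorphism of order three has nilpotency class at most `3`. -/
theorem result (G : Type*) [Group G] (φ : MulAut G) (hφ : ∀ x, x * φ x * φ (φ x) = 1) :
    Subgroup.upperCentralSeries G 3 = ⊤ :=
  Pool.Agent.H63.SP.levi (Pool.Agent.H63.SP.engel φ.toMonoidHom hφ)

end Pool.Agent.Results.MP_273d02_al.OrderThree
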