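import Pool.Agent.H63.SP.ZTwo

/-!
Splitting automorphisms `φ` of odd order `p` such that every element commutes with its image (for
instance all subgroups generated by a `φ`-orbit are abelian): all `p`-th powers lie in the second
centre, so `G / Z_2(G)` has exponent `p`.

Proof: `[g^φ, h] = [g, h^φ]` for all `g, h`, conjugation by `y` and by `y^φ` agree on the
commutator subgroup, and `φ` fixes all triple commutators. Therefore
`[[a, z], w] = [[a, z^{φφ}], w]`, and `z⁻¹ z^{φφ}` is in the second centre. So `φ` acts trivially
on `G / Z_2(G)`, and the splitting identity says that this quotient has exponent `p`.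
-/

set_option autoImplicit false

namespace Pool.Agent.Results.MP_273d02_al.SecondCentre

/-- If every element commutes with its image under a splitting automorphism of odd order `p`, then
all `p`-th powers are in the second centre. -/
theorem result (G : Type*) [Group G] (p : ℕ) (hp : p % 2 = 1) (φ : MulAut G) (hone : φ ^ p = 1)
    (hφ : ∀ x : G, ((List.range p).map (fun i => (φ ^ i) x)).prod = 1)
    (hcomm : ∀ g : G, Commute g (φ g)) (x : G) :
    x ^ p ∈ Subgroup.upperCentralSeries G 2 :=
  Pool.Agent.H63.SP.pow_mem2 φ (fun x => (hcomm x).eq) p hp hone hφ x

end Pool.Agent.Results.MP_273d02_al.SecondCentre
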