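import Pool.Agent.H63.SP.Third

/-!
Splitting automorphisms `φ` of order `p` such that every element commutes with its image: the third
term of the lower central series is fixed pointwise by `φ` and has exponent `p`.

Proof: `[g^φ, h] = [g, h^φ]` for all `g, h`, and conjugation by `y` and by `y^φ` agree on the
commutator subgroup; so `[y, c]^φ = [y^φ, c^φ] = [y, c]` for all `c` in the commutator subgroup.
-/

set_option autoImplicit false

namespace Pool.Agent.Results.MP_273d02_al.ThirdTerm

/-- If every element commutes with its image under a splitting automorphism of order `p`, then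
`γ_3(G) = [[G, G], G]` is fixed pointwise and has exponent `p`. -/
theorem result (G : Type*) [Group G] (p : ℕ) (φ : MulAut G)
    (hφ : ∀ x : G, ((List.range p).map (fun i => (φ ^ i) x)).prod = 1)
    (hcomm : ∀ g : G, Commute g (φ g)) (x : G)
    (hx : x ∈ (⁅(⁅(⊤ : Subgroup G), ⊤⁆ : Subgroup G), ⊤⁆ : Subgroup G)) :
    φ x = x ∧ x ^ p = 1 :=
  Pool.Agent.H63.SP.pow_third φ (fun x => (hcomm x).eq) p hφ x hx

end Pool.Agent.Results.MP_273d02_al.ThirdTerm
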